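import Pool.Agent.H705.FP.Stm

/-! # EVU: union bound over a grid and Borel-Cantelli over `ℕ × ℕ` (helper980 for helper705; edited from
`Pool/Agent/H383/RO/T_EV.lean`) -/

set_option autoImplicit false

namespace Pool.Agent.H980.FP

open MeasureTheory ProbabilityTheory Filter Topology Finset
open Pool.Agent.H705.FP

lemma exp_neg_nat_le (n : ℕ) : Real.exp (-(n : ℝ)) ≤ (1 / 2 : ℝ) ^ n := by
  have h1 : Real.exp (-(n : ℝ)) = (Real.exp (-1)) ^ n := by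
    rw [← Real.exp_nat_mul]
    congr 1
    ring
  rw [h1]
  apply pow_le_pow_left₀ (Real.exp_pos _).le
  rw [Real.exp_neg, one_div]
  apply inv_anti₀ (by norm_num)
  have := Real.add_one_le_exp (1 : ℝ)
  linarith

lemma lam_sq (C p : ℝ) (A j k : ℕ) (hC : 0 < C) :
    (Real.sqrt (2 * C * (A + 8)) * (2 : ℝ) ^ (-(p * j / 2)) * Real.sqrt ((j : ℝ) + k)) ^ 2 /
      (2 * (C * (2 : ℝ) ^ (-(p * j)))) = (((A + 8) * (j + k) : ℕ) : ℝ) := by
  have h1 : ((2 : ℝ) ^ (-(p * j / 2))) ^ 2 = (2 : ℝ) ^ (-(p * j)) := by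
    rw [← Real.rpow_natCast, ← Real.rpow_mul (by norm_num)]
    congr 1
    push_cast
    ring
  rw [mul_pow, mul_pow, Real.sq_sqrt (by positivity), Real.sq_sqrt (by positivity), h1]
  have h2 : (0 : ℝ) < (2 : ℝ) ^ (-(p * j)) := by positivity
  field_simp
  push_cast
  ring

lemma count_le (A j k : ℕ) :
    ((2 : ℝ) ^ (k + (A + 4) * j) + 1) * ((2 : ℝ) ^ (j + 1) - 2 ^ j + 1) *
      (2 * (1 / 2 : ℝ) ^ ((A + 8) * (j + k))) ≤ 8 * (1 / 2 : ℝ) ^ j * (1 / 2 : ℝ) ^ k := by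
  have h1 : (2 : ℝ) ^ (k + (A + 4) * j) + 1 ≤ 2 ^ (k + (A + 4) * j + 1) := by
    have : (1 : ℝ) ≤ 2 ^ (k + (A + 4) * j) := one_le_pow₀ (by norm_num)
    rw [pow_succ]
    linarith
  have h2 : (2 : ℝ) ^ (j + 1) - 2 ^ j + 1 ≤ 2 ^ (j + 1) := by
    have : (1 : ℝ) ≤ 2 ^ j := one_le_pow₀ (by norm_num)
    linarith
  have h20 : (0 : ℝ) ≤ (2 : ℝ) ^ (j + 1) - 2 ^ j + 1 := by
    have : (0 : ℝ) < 2 ^ j := by positivity
    rw [pow_succ]
    linarith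
  have h3 : ((2 : ℝ) ^ (k + (A + 4) * j) + 1) * ((2 : ℝ) ^ (j + 1) - 2 ^ j + 1) ≤
      2 ^ (k + (A + 4) * j + 1) * 2 ^ (j + 1) :=
    mul_le_mul h1 h2 h20 (by positivity)
  have h4 : (0 : ℝ) ≤ 2 * (1 / 2 : ℝ) ^ ((A + 8) * (j + k)) := by positivity
  refine (mul_le_mul_of_nonneg_right h3 h4).trans ?_
  have h5 : (2 : ℝ) ^ (k + (A + 4) * j + 1) * 2 ^ (j + 1) * (2 * (1 / 2 : ℝ) ^ ((A + 8) * (j + k))) =
      8 * (2 : ℝ) ^ (k + (A + 5) * j) * (1 / 2 : ℝ) ^ ((A + 8) * (j + k)) := by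
    have : (2 : ℝ) ^ (k + (A + 4) * j + 1) * 2 ^ (j + 1) = 4 * 2 ^ (k + (A + 5) * j) := by
      rw [← pow_add]
      have e : k + (A + 4) * j + 1 + (j + 1) = (k + (A + 5) * j) + 2 := by ring
      rw [e, pow_add]
      ring
    rw [this]
    ring
  rw [h5]
  have h6 : (A + 8) * (j + k) = (k + (A + 5) * j) + (j + k) + (2 * j + (A + 6) * k) := by ring
  have h60 : (1 / 2 : ℝ) ^ ((A + 8) * (j + k)) = (1 / 2 : ℝ) ^ (k + (A + 5) * j) *
      ((1 / 2 : ℝ) ^ j * (1 / 2 : ℝ) ^ k) * (1 / 2 : ℝ) ^ (2 * j + (A + 6) * k) := by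
    rw [h6, pow_add _ (k + (A + 5) * j + (j + k)), pow_add _ (k + (A + 5) * j), pow_add _ j]
  rw [h60]
  have h7 : (2 : ℝ) ^ (k + (A + 5) * j) * (1 / 2 : ℝ) ^ (k + (A + 5) * j) = 1 := by
    rw [← mul_pow]
    norm_num
  have h8 : (1 / 2 : ℝ) ^ (2 * j + (A + 6) * k) ≤ 1 := pow_le_one₀ (by norm_num) (by norm_num)
  calc 8 * (2 : ℝ) ^ (k + (A + 5) * j) * ((1 / 2 : ℝ) ^ (k + (A + 5) * j) *
        ((1 / 2 : ℝ) ^ j * (1 / 2 : ℝ) ^ k) * (1 / 2 : ℝ) ^ (2 * j + (A + 6) * k)) =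
      8 * ((2 : ℝ) ^ (k + (A + 5) * j) * (1 / 2 : ℝ) ^ (k + (A + 5) * j)) *
        ((1 / 2 : ℝ) ^ j * (1 / 2 : ℝ) ^ k) * (1 / 2 : ℝ) ^ (2 * j + (A + 6) * k) := by ring
    _ ≤ 8 * ((2 : ℝ) ^ (k + (A + 5) * j) * (1 / 2 : ℝ) ^ (k + (A + 5) * j)) *
        ((1 / 2 : ℝ) ^ j * (1 / 2 : ℝ) ^ k) * 1 := by
          apply mul_le_mul_of_nonneg_left h8 (by positivity)
    _ = 8 * (1 / 2 : ℝ) ^ j * (1 / 2 : ℝ) ^ k := by
          rw [h7]
          ring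

/-- The sum of the bounds for the mean values. -/
lemma mean_le {a g w : ℕ → ℝ} {A : ℕ} {p C : ℝ} (ha : ∀ n, 0 ≤ a n) (hw : WinU A g w) (hC : 0 < C)
    (hv : ∀ j M : ℕ, 2 ^ j ≤ M → ∑ n ∈ Ico (2 ^ j) M, a n ^ 2 ≤ C * (2 : ℝ) ^ (-(p * j)))
    {j k M i : ℕ} (hjk : 1 ≤ j + k) (hM1 : 2 ^ j ≤ M) (hM2 : M ≤ 2 ^ (j + 1))
    (hi : 2 ^ ((2 * A + 6) * j) ≤ i) :
    ∑ n ∈ Ico (2 ^ j) M, 2 * a n / (w n * ((i : ℝ) / 2 ^ ((A + 4) * j))) ≤
      2 * Real.sqrt C * 4 ^ A * (2 : ℝ) ^ (-(p * j / 2)) * Real.sqrt ((j : ℝ) + k) := by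
  have ht : (2 : ℝ) ^ ((A + 2) * j) ≤ (i : ℝ) / 2 ^ ((A + 4) * j) := by
    rw [le_div_iff₀ (by positivity), ← pow_add]
    have e : (A + 2) * j + (A + 4) * j = (2 * A + 6) * j := by ring
    rw [e]
    exact_mod_cast hi
  set t : ℝ := (i : ℝ) / 2 ^ ((A + 4) * j) with htdef
  have ht0 : 0 < t := lt_of_lt_of_le (by positivity) ht
  set X : ℝ := (2 : ℝ) ^ (-(p * j / 2)) with hX
  have hX0 : 0 < X := by positivity
  have hX2 : X ^ 2 = (2 : ℝ) ^ (-(p * j)) := by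
    rw [hX, ← Real.rpow_natCast, ← Real.rpow_mul (by norm_num)]
    congr 1
    push_cast
    ring
  have hterm : ∀ n ∈ Ico (2 ^ j) M, 2 * a n / (w n * t) ≤
      2 * (Real.sqrt C * X) * (4 ^ A * 2 ^ (A * j)) / 2 ^ ((A + 2) * j) := by
    intro n hn
    have hn' := Finset.mem_Ico.1 hn
    have h1 : a n ^ 2 ≤ (Real.sqrt C * X) ^ 2 := by
      rw [mul_pow, Real.sq_sqrt hC.le, hX2]
      refine le_trans ?_ (hv j M hM1)
      exact Finset.single_le_sum (f := fun n => a n ^ 2) (fun n _ => sq_nonneg _) hn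
    have h2 : a n ≤ Real.sqrt C * X := by
      have h3 : 0 ≤ Real.sqrt C * X := by positivity
      exact le_of_sq_le_sq h1 h3
    obtain ⟨-, -, hw1, -⟩ := hw n
    have hn2 : (0 : ℝ) < ((n : ℝ) + 2) ^ A := by positivity
    have hw0 : 0 < w n := lt_of_lt_of_le (by positivity) hw1
    have h3 : 1 / w n ≤ ((n : ℝ) + 2) ^ A := by
      rw [div_le_iff₀ hw0]
      rw [div_le_iff₀ hn2] at hw1
      linarith
    have h4 : ((n : ℝ) + 2) ^ A ≤ 4 ^ A * 2 ^ (A * j) := by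
      have h5 : (n : ℝ) + 2 ≤ 4 * 2 ^ j := by
        have h6 : n + 2 ≤ 4 * 2 ^ j := by
          have h7 : n < 2 ^ (j + 1) := lt_of_lt_of_le hn'.2 hM2
          rw [pow_succ] at h7
          have h8 : 1 ≤ 2 ^ j := Nat.one_le_two_pow
          omega
        exact_mod_cast h6
      calc ((n : ℝ) + 2) ^ A ≤ (4 * 2 ^ j) ^ A := pow_le_pow_left₀ (by positivity) h5 A
        _ = 4 ^ A * 2 ^ (A * j) := by
          rw [mul_pow, ← pow_mul, mul_comm j A]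
    have h5 : 1 / t ≤ 1 / 2 ^ ((A + 2) * j) := one_div_le_one_div_of_le (by positivity) ht
    calc 2 * a n / (w n * t) = 2 * a n * (1 / w n) * (1 / t) := by
          field_simp
      _ ≤ 2 * (Real.sqrt C * X) * (4 ^ A * 2 ^ (A * j)) * (1 / 2 ^ ((A + 2) * j)) := by
          have h6 := ha n
          have h7 : 0 ≤ 1 / w n := by positivity
          have h8 : 0 ≤ 1 / t := by positivity
          apply mul_le_mul _ h5 h8 (by positivity)
          apply mul_le_mul _ (h3.trans h4) h7 (by positivity)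
          linarith
      _ = _ := by ring
  refine (Finset.sum_le_sum hterm).trans ?_
  rw [Finset.sum_const, Nat.card_Ico, nsmul_eq_mul]
  have hcard : ((M - 2 ^ j : ℕ) : ℝ) ≤ 2 ^ j := by
    have h1 : M - 2 ^ j ≤ 2 ^ j := by
      rw [pow_succ] at hM2
      omega
    exact_mod_cast h1
  have h1 : ((M - 2 ^ j : ℕ) : ℝ) * (2 * (Real.sqrt C * X) * (4 ^ A * 2 ^ (A * j)) / 2 ^ ((A + 2) * j)) ≤
      2 ^ j * (2 * (Real.sqrt C * X) * (4 ^ A * 2 ^ (A * j)) / 2 ^ ((A + 2) * j)) :=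
    mul_le_mul_of_nonneg_right hcard (by positivity)
  refine h1.trans ?_
  have h2 : (2 : ℝ) ^ j * (2 * (Real.sqrt C * X) * (4 ^ A * 2 ^ (A * j)) / 2 ^ ((A + 2) * j)) =
      2 * Real.sqrt C * 4 ^ A * X * (2 ^ j * 2 ^ (A * j) / 2 ^ ((A + 2) * j)) := by ring
  rw [h2]
  have h3 : (2 : ℝ) ^ j * 2 ^ (A * j) / 2 ^ ((A + 2) * j) ≤ 1 := by
    rw [div_le_one (by positivity), ← pow_add]
    apply pow_le_pow_right₀ (by norm_num)
    nlinarith
  have h4 : 1 ≤ Real.sqrt ((j : ℝ) + k) := by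
    rw [Real.one_le_sqrt]
    exact_mod_cast hjk
  have h5 : 0 ≤ 2 * Real.sqrt C * 4 ^ A * X := by positivity
  exact mul_le_mul_of_nonneg_left (h3.trans h4) h5

theorem T_EVU (hHOU : P_HOU) : P_EVU := by
  intro Ω _ P X hM a β g w A p C ha hW hp hp1 hC hv
  have hprob := hM.prob
  let lam : ℕ → ℕ → ℝ := fun j k =>
    Real.sqrt (2 * C * (A + 8)) * (2 : ℝ) ^ (-(p * j / 2)) * Real.sqrt ((j : ℝ) + k)
  let thr : ℕ → ℕ → ℝ := fun j k =>
    (Real.sqrt (2 * C * (A + 8)) + 2 * Real.sqrt C * 4 ^ A) * (2 : ℝ) ^ (-(p * j / 2)) * Real.sqrt ((j : ℝ) + k)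
  have hw0 : ∀ n, 0 < w n := fun n =>
    lt_of_lt_of_le (by positivity : (0 : ℝ) < 1 / ((n : ℝ) + 2) ^ A) (hW n).2.2.1
  let B : ℕ × ℕ → Set Ω := fun x => {ω | 1 ≤ x.1 + x.2 ∧ ∃ i M : ℕ,
    i ≤ 2 ^ (x.2 + (A + 4) * x.1) ∧ 2 ^ ((2 * A + 6) * x.1) ≤ i ∧ 2 ^ x.1 ≤ M ∧ M ≤ 2 ^ (x.1 + 1) ∧
    thr x.1 x.2 < |∑ n ∈ Ico (2 ^ x.1) M,
      wv a β (om g w fun n => X n ω) n ((i : ℝ) / 2 ^ ((A + 4) * x.1))|}
  have hB : ∀ x, P (B x) ≤ ENNReal.ofReal (8 * (1 / 2 : ℝ) ^ x.1 * (1 / 2 : ℝ) ^ x.2) := by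
    rintro ⟨j, k⟩
    by_cases hjk : 1 ≤ j + k
    · have hlam : 0 < lam j k := by
        have h1 : (0 : ℝ) < (j : ℝ) + k := by
          have : (1 : ℝ) ≤ (j : ℝ) + k := by exact_mod_cast hjk
          linarith
        change 0 < Real.sqrt (2 * C * (A + 8)) * (2 : ℝ) ^ (-(p * j / 2)) *
          Real.sqrt ((j : ℝ) + k)
        positivity
      have hv0 : 0 < C * (2 : ℝ) ^ (-(p * j)) := by positivity
      have hsub : B (j, k) ⊆ ⋃ i ∈ Finset.range (2 ^ (k + (A + 4) * j) + 1),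
          ⋃ M ∈ Finset.Icc (2 ^ j) (2 ^ (j + 1)), {ω | 2 ^ ((2 * A + 6) * j) ≤ i ∧ thr j k ≤ |∑ n ∈ Ico (2 ^ j) M,
            wv a β (om g w fun n => X n ω) n ((i : ℝ) / 2 ^ ((A + 4) * j))|} := by
        rintro ω ⟨_, i, M, hi, hi2, hM1, hM2, hlt⟩
        rw [Set.mem_iUnion₂]
        refine ⟨i, Finset.mem_range.mpr (Nat.lt_succ_of_le hi), ?_⟩
        rw [Set.mem_iUnion₂]
        exact ⟨M, Finset.mem_Icc.mpr ⟨hM1, hM2⟩, hi2, hlt.le⟩
      have h1 : ∀ i ∈ Finset.range (2 ^ (k + (A + 4) * j) + 1),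
          ∀ M ∈ Finset.Icc (2 ^ j) (2 ^ (j + 1)), P {ω | 2 ^ ((2 * A + 6) * j) ≤ i ∧ thr j k ≤ |∑ n ∈ Ico (2 ^ j) M,
            wv a β (om g w fun n => X n ω) n ((i : ℝ) / 2 ^ ((A + 4) * j))|} ≤
            ENNReal.ofReal (2 * (1 / 2 : ℝ) ^ ((A + 8) * (j + k))) := by
        intro i _ M hMM
        by_cases hi2 : 2 ^ ((2 * A + 6) * j) ≤ i
        swap
        · have he : {ω | 2 ^ ((2 * A + 6) * j) ≤ i ∧ thr j k ≤ |∑ n ∈ Ico (2 ^ j) M,
              wv a β (om g w fun n => X n ω) n ((i : ℝ) / 2 ^ ((A + 4) * j))|} = ∅ := by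
            apply Set.eq_empty_of_forall_notMem
            rintro ω ⟨h, _⟩
            exact hi2 h
          rw [he, measure_empty]
          exact zero_le
        have hMM' := Finset.mem_Icc.mp hMM
        have hmean := mean_le (p := p) ha hW hC hv hjk hMM'.1 hMM'.2 hi2
        have ht0 : 0 < (i : ℝ) / 2 ^ ((A + 4) * j) := by
          have h10 : 0 < i := lt_of_lt_of_le (by positivity) hi2
          have h11 : (0 : ℝ) < i := by exact_mod_cast h10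
          positivity
        have hsub2 : {ω | 2 ^ ((2 * A + 6) * j) ≤ i ∧ thr j k ≤ |∑ n ∈ Ico (2 ^ j) M,
              wv a β (om g w fun n => X n ω) n ((i : ℝ) / 2 ^ ((A + 4) * j))|} ⊆
            {ω | lam j k + ∑ n ∈ Ico (2 ^ j) M, 2 * a n / (w n * ((i : ℝ) / 2 ^ ((A + 4) * j))) ≤
              |∑ n ∈ Ico (2 ^ j) M, wv a β (om g w fun n => X n ω) n ((i : ℝ) / 2 ^ ((A + 4) * j))|} := by
          rintro ω ⟨_, h⟩
          refine le_trans ?_ h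
          have e : thr j k = lam j k +
              2 * Real.sqrt C * 4 ^ A * (2 : ℝ) ^ (-(p * j / 2)) * Real.sqrt ((j : ℝ) + k) := by
            simp only [thr, lam]
            ring
          rw [e]
          linarith
        refine (measure_mono hsub2).trans ?_
        refine (hHOU Ω P X hM a β g w ha hw0 ((i : ℝ) / 2 ^ ((A + 4) * j)) (2 ^ j) M (lam j k)
          (C * (2 : ℝ) ^ (-(p * j))) ht0 hlam hv0 (hv j M hMM'.1)).trans ?_
        apply ENNReal.ofReal_le_ofReal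
        have h2 : lam j k ^ 2 / (2 * (C * (2 : ℝ) ^ (-(p * j)))) =
            (((A + 8) * (j + k) : ℕ) : ℝ) := lam_sq C p A j k hC
        rw [h2]
        have h3 := exp_neg_nat_le ((A + 8) * (j + k))
        linarith
      refine (measure_mono hsub).trans ?_
      refine (measure_biUnion_finset_le _ _).trans ?_
      have h4 : ∀ i ∈ Finset.range (2 ^ (k + (A + 4) * j) + 1),
          P (⋃ M ∈ Finset.Icc (2 ^ j) (2 ^ (j + 1)), {ω | 2 ^ ((2 * A + 6) * j) ≤ i ∧ thr j k ≤ |∑ n ∈ Ico (2 ^ j) M,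
            wv a β (om g w fun n => X n ω) n ((i : ℝ) / 2 ^ ((A + 4) * j))|}) ≤
          ENNReal.ofReal (((2 : ℝ) ^ (j + 1) - 2 ^ j + 1) *
            (2 * (1 / 2 : ℝ) ^ ((A + 8) * (j + k)))) := by
        intro i hi
        refine (measure_biUnion_finset_le _ _).trans ?_
        refine (Finset.sum_le_card_nsmul _ _ _ (h1 i hi)).trans ?_
        rw [nsmul_eq_mul, Nat.card_Icc, ← ENNReal.ofReal_natCast,
          ← ENNReal.ofReal_mul (Nat.cast_nonneg _)]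
        apply ENNReal.ofReal_le_ofReal
        have h5 : ((2 ^ (j + 1) + 1 - 2 ^ j : ℕ) : ℝ) = (2 : ℝ) ^ (j + 1) - 2 ^ j + 1 := by
          rw [Nat.cast_sub]
          · push_cast
            ring
          · have : 2 ^ j ≤ 2 ^ (j + 1) := Nat.pow_le_pow_right (by norm_num) (Nat.le_succ j)
            omega
        rw [h5]
      refine (Finset.sum_le_card_nsmul _ _ _ h4).trans ?_
      have h20 : (0 : ℝ) ≤ (2 : ℝ) ^ (j + 1) - 2 ^ j + 1 := by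
        have : (0 : ℝ) < 2 ^ j := by positivity
        rw [pow_succ]
        linarith
      rw [nsmul_eq_mul, Finset.card_range, ← ENNReal.ofReal_natCast,
        ← ENNReal.ofReal_mul (Nat.cast_nonneg _)]
      apply ENNReal.ofReal_le_ofReal
      have h6 := count_le A j k
      push_cast
      calc ((2 : ℝ) ^ (k + (A + 4) * j) + 1) * (((2 : ℝ) ^ (j + 1) - 2 ^ j + 1) *
            (2 * (1 / 2 : ℝ) ^ ((A + 8) * (j + k)))) =
          ((2 : ℝ) ^ (k + (A + 4) * j) + 1) * ((2 : ℝ) ^ (j + 1) - 2 ^ j + 1) *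
            (2 * (1 / 2 : ℝ) ^ ((A + 8) * (j + k))) := by ring
        _ ≤ _ := h6
    · have hempty : B (j, k) = ∅ := by
        apply Set.eq_empty_of_forall_notMem
        rintro ω ⟨h, _⟩
        exact hjk h
      rw [hempty, measure_empty]
      exact zero_le
  have hs : Summable (fun x : ℕ × ℕ => 8 * (1 / 2 : ℝ) ^ x.1 * (1 / 2 : ℝ) ^ x.2) := by
    have h1 : Summable (fun n : ℕ => (1 / 2 : ℝ) ^ n) :=
      summable_geometric_of_lt_one (by norm_num) (by norm_num)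
    exact Summable.mul_of_nonneg (h1.mul_left 8) h1 (fun n => by positivity)
      (fun n => by positivity)
  have hsum : ∑' x, P (B x) ≠ ⊤ :=
    ne_top_of_le_ne_top hs.tsum_ofReal_ne_top (ENNReal.tsum_le_tsum hB)
  filter_upwards [ae_finite_setOfPred_mem hsum] with ω hω
  obtain ⟨K, hK⟩ := (hω.image (fun x : ℕ × ℕ => x.1 + x.2)).bddAbove
  refine ⟨K + 1, fun j k hjk i M hi hi2 hM1 hM2 => ?_⟩
  by_contra hcon
  rw [not_le] at hcon
  have hmem : (j, k) ∈ {x | ω ∈ B x} := ⟨by omega, i, M, hi, hi2, hM1, hM2, hcon⟩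
  have hle : j + k ≤ K := hK (Set.mem_image_of_mem _ hmem)
  omega

end Pool.Agent.H980.FP
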